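import Pool.Agent.UC32.Main
import Pool.Agent.KAP31.Door
import Pool.Agent.ZPL53.Door

/-!
Doors from Theorem UC (helper95): `D_a = V_s V_n` for all `n` with `s n = a` at one slot `s` of one
symbol `a` with inclusion-maximal set of slots (law LX of helper79, law HG of helper74), or for
all `a` in `Q_g` at one `g` (law K1 of helper77), gives the elementary type conjecture for
`-1 = 1`.
-/

set_option autoImplicit false
set_option linter.unusedSectionVars false

namespace Pool.Agent.UC32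

open QS
open Pool.Agent.MXR66 (va qr qm ql of_ql cancel)
open Pool.Agent.KAP66
open Pool.Agent.KAP31
open Pool.Agent.AST (toD)
open scoped Classical

/-- **Theorem UC** (helper95) for structures with `-1 = 1` -/
theorem ucS {S : QStruct} [Finite S.G] (hneg : S.neg = 1) {a d : S.Q} (hd : d ≠ S.zero)
    {g : S.G} (ga : InQ S g a) (gd : InQ S g d) (h : ∀ n, S.q g n = d → InQ S n a) {x : S.G}
    (hx : InQ S x d) : InQ S x a := by
  have : Finite (Additive S.G) := (inferInstance : Finite S.G)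
  obtain ⟨t, ht⟩ := ga
  obtain ⟨u, hu⟩ := gd
  obtain ⟨w, hw⟩ := hx
  obtain ⟨y, hy⟩ := uc (toD S hneg) (a := a) (d := d) hd (g := Additive.ofMul g)
    ⟨Additive.ofMul t, ht⟩ ⟨Additive.ofMul u, hu⟩
    (fun n hn => by
      obtain ⟨m, hm⟩ := h (Additive.toMul n) hn
      exact ⟨Additive.ofMul m, hm⟩) (x := Additive.ofMul x) ⟨Additive.ofMul w, hw⟩
  exact ⟨Additive.toMul y, hy⟩

theorem q_self {S : QStruct} (hneg : S.neg = 1) (x : S.G) : S.q x x = S.zero := by
  have h := S.qs1 x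
  rwa [hneg, one_mul] at h

/-- **law HG at the symbol `a` and the slot `s`**: `s D_a = s V_n` for all `n` with `s n = a` -/
def HGat (S : QStruct) (a : S.Q) (s : S.G) : Prop :=
  ∀ n y, S.q s n = a → InD S a y → ∃ w, S.q n w = S.zero ∧ S.q s w = S.q s y

/-- `D_a = V_s V_n` gives `s D_a = s V_n` -/
theorem HGat.of_prod {S : QStruct} {a : S.Q} {s : S.G} (h : ∀ n y, S.q s n = a → InD S a y →
    ∃ u w, S.q s u = S.zero ∧ S.q n w = S.zero ∧ u * w = y) : HGat S a s := by
  intro n y hn hy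
  obtain ⟨u, w, h1, h2, rfl⟩ := h n y hn hy
  exact ⟨w, h2, (qr h1).symm⟩

/-- law HG at one slot `s` of a symbol `a` with inclusion-maximal set of slots: `a` is rigid
at `s` -/
theorem rigid_of_HG {S : QStruct} [Finite S.G] (hneg : S.neg = 1) {a : S.Q} {s : S.G}
    (ha : a ≠ S.zero) (hmax : SMax S a) (hs : InQ S s a) (h : HGat S a s) {v : S.G}
    (hv : InD S a v) : S.q s v = S.zero ∨ S.q s v = a := by
  refine atomic ⟨s, hs⟩ hmax fun x hx => ?_
  refine ucS hneg ha ⟨v, rfl⟩ hs (fun n hn => ?_) hx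
  have h1 : S.q s (s * n) = a := by rw [qr (q_self hneg s), hn]
  obtain ⟨w, h2, h3⟩ := h (s * n) v h1 hv
  exact ⟨w, (of_ql h2).symm.trans h3⟩

/-- **the door for law LX / law HG** at one slot of one symbol with inclusion-maximal set of
slots -/
theorem etc_of_HGat (h : ∀ S : QStruct, MinEx S → ∃ (a : S.Q) (s : S.G), a ≠ S.zero ∧
    SMax S a ∧ InQ S s a ∧ HGat S a s) :
    ∀ S : QStruct, Finite S.G → S.neg = 1 → ElemType S :=
  etc_of_rigid_symbol fun S M => by
    have := M.fin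
    obtain ⟨a, s, ha, hmax, hs, hK⟩ := h S M
    exact ⟨a, s, ha, hs, fun v hv => rigid_of_HG M.neg ha hmax hs hK hv⟩

/-- **law HG** (helper74): `D_a = V_s V_n` if `s n = a` and `s` is heaviest among the `s'` with
`s' n = a` -/
def LawHG (S : QStruct) : Prop := ∀ (a : S.Q) (s n : S.G), a ≠ S.zero → S.q s n = a →
  (∀ s', S.q s' n = a → va S s' ≤ va S s) → ∀ y, InD S a y →
    ∃ u w, S.q s u = S.zero ∧ S.q n w = S.zero ∧ u * w = y

/-- **law LX** (helper79), the weak form: `D_a = V_s V_n` if `s n = a`, the set of slots of `a` is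
inclusion-maximal and `s` is a heaviest slot of `a` -/
def LawLX (S : QStruct) : Prop := ∀ (a : S.Q) (s n : S.G), a ≠ S.zero → SMax S a → S.q s n = a →
  (∀ t, InQ S t a → va S t ≤ va S s) → ∀ y, InD S a y →
    ∃ u w, S.q s u = S.zero ∧ S.q n w = S.zero ∧ u * w = y

theorem LawHG.lx {S : QStruct} (h : LawHG S) : LawLX S := fun a s n ha _ hn hs =>
  h a s n ha hn fun s' hs' => hs s' ⟨n, hs'⟩

/-- **law LX gives the elementary type conjecture for `-1 = 1`** -/
theorem etc_of_LX (h : ∀ S : QStruct, MinEx S → LawLX S) :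
    ∀ S : QStruct, Finite S.G → S.neg = 1 → ElemType S :=
  etc_of_HGat fun S M => by
    have := M.fin
    obtain ⟨a0, ha0⟩ := M.exists_symbol
    obtain ⟨a, ha, -, hmax⟩ := exists_smax ha0
    obtain ⟨x, y, hxy⟩ := S.surj a
    have : Nonempty {s : S.G // InQ S s a} := ⟨⟨x, y, hxy⟩⟩
    obtain ⟨⟨s, hs⟩, hs'⟩ := Finite.exists_max (fun s : {s : S.G // InQ S s a} => va S s.1)
    exact ⟨a, s, ha, hmax, hs, HGat.of_prod fun n y hn hy =>
      h S M a s n ha hmax hn (fun t ht => hs' ⟨t, ht⟩) y hy⟩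

/-- **law HG gives the elementary type conjecture for `-1 = 1`** -/
theorem etc_of_HG (h : ∀ S : QStruct, MinEx S → LawHG S) :
    ∀ S : QStruct, Finite S.G → S.neg = 1 → ElemType S :=
  etc_of_LX fun S M => (h S M).lx

/-- `g` with law HG at `(a, g)` for all `a ∈ Q_g` different from `0`: for every `b ∈ Q_g` the
elements of `D_b` outside `V_g` are slots of `b` -/
theorem slots_of_K1 {S : QStruct} (hneg : S.neg = 1) {g : S.G}
    (h : ∀ a, a ≠ S.zero → HGat S a g) {b : S.Q} (hb : InQ S g b) {v : S.G} (hv : InD S b v)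
    (hv' : S.q g v ≠ S.zero) : InQ S v b := by
  obtain ⟨s, hs, h1⟩ := hv
  obtain ⟨t, h2, h3⟩ := slot hb hs
  have h4 : S.q (g * s) t = S.zero := ql (h2.trans h3.symm)
  have h5 : S.q (g * s) v = S.q g v := qmul_left h1
  have h6 : S.q g (g * v) = S.q g v := qr (q_self hneg g)
  obtain ⟨w, h7, h8⟩ := h (S.q g v) hv' (g * v) t h6 ⟨g * s, ⟨v, h5⟩, h4⟩
  exact ⟨w, (of_ql h7).symm.trans (h8.trans h2)⟩

/-- **the door for law K1** (helper77): one `g ≠ 1` with law HG at `(a, g)` for all `a` -/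
theorem etc_of_K1 (h : ∀ S : QStruct, MinEx S → ∃ g : S.G, g ≠ 1 ∧
    ∀ a, a ≠ S.zero → HGat S a g) :
    ∀ S : QStruct, Finite S.G → S.neg = 1 → ElemType S :=
  ZPL53.etc_of_W fun S hf hneg hE hT => by
    have M : MinEx S := ⟨hf, hneg, hE, hT⟩
    obtain ⟨g, hg, h1⟩ := h S M
    obtain ⟨t, ht⟩ := M.no_rad hg
    refine ⟨S.q g t, ht, ⟨⟨⟨{v | S.q g v = S.zero}, fun {x y} hx hy => ?_⟩, S.q_one g⟩,
      fun {x} hx => ?_⟩, ⟨t, g, t, S.qs2 _ _, q_self hneg t, ht⟩, fun s u v hs hv hvK => ?_⟩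
    · exact (qr hx).trans hy
    · have : x⁻¹ = x := inv_eq_of_mul_eq_one_left (S.exp_two x)
      rw [this]
      exact hx
    · exact slots_of_K1 hneg h1 ⟨t, rfl⟩ ⟨s, ⟨u, hs⟩, hv⟩ hvK

/-- **law HG at one `g ≠ 1` which is heaviest** (helper77) -/
theorem etc_of_K1g (h : ∀ S : QStruct, MinEx S → ∀ g : S.G, g ≠ 1 →
    (∀ x : S.G, x ≠ 1 → va S x ≤ va S g) → ∀ n y, S.q g n ≠ S.zero → InD S (S.q g n) y →
    ∃ u w, S.q g u = S.zero ∧ S.q n w = S.zero ∧ u * w = y) :
    ∀ S : QStruct, Finite S.G → S.neg = 1 → ElemType S :=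
  etc_of_K1 fun S M => by
    have := M.fin
    obtain ⟨g0, hg0⟩ := M.exists_ne
    have : Nonempty {x : S.G // x ≠ 1} := ⟨⟨g0, hg0⟩⟩
    obtain ⟨⟨g, hg⟩, hg'⟩ := Finite.exists_max (fun x : {x : S.G // x ≠ 1} => va S x.1)
    refine ⟨g, hg, fun a ha => HGat.of_prod fun n y hn hy => ?_⟩
    subst hn
    exact h S M g hg (fun x hx => hg' ⟨x, hx⟩) n y ha hy

end Pool.Agent.UC32
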