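import Pool.Agent.UC32.LawT
import Pool.Agent.GD98.Conv

/-!
Every structure of elementary type with `-1 = 1` satisfies law T (helper74, helper84): if
`u d ≠ 0`, `d` is heaviest in `d V_u` and `v ∈ V_u`, then `Q_v ∩ Q_d ⊆ Q_(vd)`.
-/

set_option autoImplicit false
set_option linter.unusedSectionVars false

namespace Pool.Agent.UC32

open QS
open Pool.Agent.MXR66 (va Clean qr qm ql of_ql)
open Pool.Agent.GD98 (one_q self_q)

/-- law T without `u d ≠ 0` -/
def LT (S : QStruct) : Prop := ∀ u d v,
  (∀ d', S.q u d' = S.q u d → va S d' ≤ va S d) → S.q u v = S.zero → Clean S v d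

theorem LT.lawT {S : QStruct} (h : LT S) : LawT S := fun u d v _ h1 h2 => h u d v h1 h2

theorem clean_of_zero {S : QStruct} {v d a b : S.G} (e : S.q v a = S.q d b)
    (h0 : S.q d b = S.zero) : ∃ z, S.q (v * d) z = S.q v a :=
  ⟨1, by rw [S.q_one, e, h0]⟩

theorem rad_of_heavy {S : QStruct} [Finite S.G] {d : S.G} (h : va S 1 ≤ va S d) (b : S.G) :
    S.q d b = S.zero := by
  classical
  have := Fintype.ofFinite S.G
  by_contra hb
  have h1 : va S 1 = Fintype.card S.G := by
    unfold va
    rw [← Nat.card_eq_fintype_card]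
    exact Nat.card_congr (Equiv.subtypeUnivEquiv fun v => one_q S v)
  have h2 : va S d < Fintype.card S.G := by
    unfold va
    rw [Nat.card_eq_fintype_card]
    exact Fintype.card_subtype_lt (x := b) hb
  omega

theorem clean_of_heavy {S : QStruct} [Finite S.G] {u d : S.G} (v : S.G)
    (hd : ∀ d', S.q u d' = S.q u d → va S d' ≤ va S d) (h0 : S.q u d = S.zero) :
    Clean S v d := fun a b e =>
  clean_of_zero e (rad_of_heavy (hd 1 (by rw [S.q_one, h0])) b)

/-- two quaternions -/
theorem t_two {S : QStruct} [Finite S.G] (h2 : Nat.card S.Q = 2) : LT S := by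
  intro u d v hd hv
  by_cases h0 : S.q u d = S.zero
  · exact clean_of_heavy v hd h0
  intro a b e
  by_cases hz : S.q v a = S.zero
  · exact clean_of_zero e (e.symm.trans hz)
  have hall : ∀ β : S.Q, β = S.zero ∨ β = S.q v a := by
    obtain ⟨p, r, -, hpr⟩ := Nat.card_eq_two_iff.1 h2
    have hm : ∀ β : S.Q, β = p ∨ β = r := fun β => by
      have : β ∈ ({p, r} : Set S.Q) := by rw [hpr]; trivial
      simpa using this
    intro β
    rcases hm β with h | h <;> rcases hm S.zero with h' | h' <;>
      rcases hm (S.q v a) with h'' | h'' <;> first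
      | exact Or.inl (h.trans h'.symm)
      | exact Or.inr (h.trans h''.symm)
      | exact absurd (h''.trans h'.symm) hz
  by_contra hno
  push Not at hno
  apply h0
  have h3 : S.q (v * d) u = S.zero := (hall _).resolve_right (hno u)
  have h4 := of_ql h3
  rw [S.qs2 u d, ← h4, S.qs2 v u, hv]

theorem va_prod (S T : QStruct) (x : S.G) (y : T.G) :
    va (QS.prod S T) (x, y) = va S x * va T y := by
  unfold va
  rw [← Nat.card_prod]
  refine Nat.card_congr
    { toFun := fun v => (⟨v.1.1, congrArg Prod.fst v.2⟩, ⟨v.1.2, congrArg Prod.snd v.2⟩)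
      invFun := fun v => ⟨(v.1.1, v.2.1), Prod.ext v.1.2 v.2.2⟩
      left_inv := fun v => rfl
      right_inv := fun v => rfl }

/-- products -/
theorem t_prod {S T : QStruct} [Finite S.G] [Finite T.G] (h : LT S) (h' : LT T) :
    LT (QS.prod S T) := by
  rintro ⟨u, u'⟩ ⟨d, d'⟩ ⟨v, v'⟩ hd hv ⟨a, a'⟩ ⟨b, b'⟩ e
  have p1 : 0 < va S d := Pool.Agent.KAP66.va_pos d
  have p2 : 0 < va T d' := Pool.Agent.KAP66.va_pos d'
  have k1 : ∀ x, S.q u x = S.q u d → va S x ≤ va S d := fun x hx => by
    have := hd (x, d') (Prod.ext hx rfl)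
    rw [va_prod, va_prod] at this
    exact Nat.le_of_mul_le_mul_right this p2
  have k2 : ∀ x, T.q u' x = T.q u' d' → va T x ≤ va T d' := fun x hx => by
    have := hd (d, x) (Prod.ext rfl hx)
    rw [va_prod, va_prod] at this
    exact Nat.le_of_mul_le_mul_left this p1
  obtain ⟨z, hz⟩ := h u d v k1 (congrArg Prod.fst hv) a b (congrArg Prod.fst e)
  obtain ⟨z', hz'⟩ := h' u' d' v' k2 (congrArg Prod.snd hv) a' b' (congrArg Prod.snd e)
  exact ⟨(z, z'), Prod.ext hz hz'⟩

/-- isomorphism -/
theorem t_iso {S T : QStruct} (h : Iso S T) (ht : LT S) : LT T := by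
  obtain ⟨φ, -, hφ⟩ := h
  have hz : ∀ a b, S.q a b = S.zero ↔ T.q (φ a) (φ b) = T.zero := fun a b => by
    have := hφ a b 1 1
    rwa [S.q_one, map_one, T.q_one] at this
  have hva : ∀ x, va T (φ x) = va S x := fun x => by
    unfold va
    exact (Nat.card_congr (φ.toEquiv.subtypeEquiv fun v => hz x v)).symm
  intro u d v hd hv a b e
  obtain ⟨u, rfl⟩ := φ.surjective u
  obtain ⟨d, rfl⟩ := φ.surjective d
  obtain ⟨v, rfl⟩ := φ.surjective v
  obtain ⟨a, rfl⟩ := φ.surjective a
  obtain ⟨b, rfl⟩ := φ.surjective b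
  obtain ⟨z, h1⟩ := ht u d v (fun d' e' => by
    have := hd (φ d') ((hφ _ _ _ _).1 e')
    rwa [hva, hva] at this) ((hz _ _).2 hv) a b ((hφ _ _ _ _).2 e)
  refine ⟨φ z, ?_⟩
  rw [← map_mul]
  exact (hφ _ _ _ _).1 h1

section Ext

variable {S : QStruct}

/-- the second generator -/
abbrev tx : Multiplicative (ZMod 2) := Multiplicative.ofAdd 1

theorem ext_zero (p q : S.G × Multiplicative (ZMod 2)) :
    (ext S).q p q = (ext S).zero ↔ extMap S p q = (S.zero, 1) := Subtype.ext_iff

theorem ext_eq (p q r s : S.G × Multiplicative (ZMod 2)) :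
    (ext S).q p q = (ext S).q r s ↔ extMap S p q = extMap S r s := Subtype.ext_iff

/-- the annihilator of an element `w ≠ 1` of `S` in the extension -/
theorem va_ext_one {w : S.G} (hw : w ≠ 1) : va (ext S) (w, 1) = va S w := by
  unfold va
  refine Nat.card_congr
    { toFun := fun v => ⟨v.1.1, ?_⟩
      invFun := fun v => ⟨(v.1, 1), ?_⟩
      left_inv := fun v => ?_
      right_inv := fun v => rfl }
  · have h := (ext_zero (w, 1) v.1).1 v.2
    have h1 := congrArg Prod.fst h
    exact h1
  · exact (ext_zero _ _).2 (by rw [extMap_one_one, v.2])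
  · obtain ⟨⟨v, ν⟩, hv⟩ := v
    have h := (ext_zero (w, 1) (v, ν)).1 hv
    rcases two_cases ν with rfl | rfl
    · rfl
    · rw [extMap_one_x] at h
      exact absurd (congrArg Prod.snd h) hw

/-- what `(w, x)` annihilates -/
theorem ann_ext_x (hn : S.neg = 1) {w v : S.G} {ν : Multiplicative (ZMod 2)}
    (h : extMap S (w, tx) (v, ν) = (S.zero, 1)) : (v = 1 ∧ ν = 1) ∨ (v = w ∧ ν = tx) := by
  rcases two_cases ν with rfl | rfl
  · rw [extMap_x_one] at h
    exact Or.inl ⟨congrArg Prod.snd h, rfl⟩
  · rw [extMap_x_x, hn, one_mul] at h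
    exact Or.inr ⟨((eq_iff_mul S _ _).2 (congrArg Prod.snd h)).symm, rfl⟩

theorem va_ext_x [Finite S.G] (hn : S.neg = 1) (w : S.G) : va (ext S) (w, tx) ≤ 2 := by
  classical
  let f : {v : (ext S).G // (ext S).q (w, tx) v = (ext S).zero} → Multiplicative (ZMod 2) :=
    fun v => v.1.2
  have hf : Function.Injective f := by
    rintro ⟨⟨v, ν⟩, hv⟩ ⟨⟨v', ν'⟩, hv'⟩ (h : ν = ν')
    subst h
    have k1 := ann_ext_x hn ((ext_zero _ _).1 hv)
    have k2 := ann_ext_x hn ((ext_zero _ _).1 hv')
    have hx : (tx : Multiplicative (ZMod 2)) ≠ 1 := by decide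
    apply Subtype.ext
    rcases k1 with ⟨rfl, rfl⟩ | ⟨rfl, rfl⟩ <;> rcases k2 with ⟨rfl, h2⟩ | ⟨rfl, h2⟩
    · rfl
    · exact absurd h2.symm hx
    · exact absurd h2 hx
    · rfl
  have h1 := Nat.card_le_card_of_injective f hf
  have h2 : Nat.card (Multiplicative (ZMod 2)) = 2 := by
    rw [Nat.card_eq_fintype_card]
    rfl
  rw [h2] at h1
  exact h1

/-- `V_w` has an element different from `1` and `w`: `|V_w| > 2` -/
theorem va_gt_two [Finite S.G] (hn : S.neg = 1) {w e : S.G} (hw : w ≠ 1) (he : S.q w e = S.zero)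
    (h1 : e ≠ 1) (h2 : e ≠ w) : 2 < va S w := by
  classical
  have := Fintype.ofFinite S.G
  unfold va
  rw [Nat.card_eq_fintype_card, Fintype.card_subtype]
  have h3 : ({1, w, e} : Finset S.G) ⊆ Finset.univ.filter fun v => S.q w v = S.zero := by
    intro v hv
    rw [Finset.mem_filter]
    refine ⟨Finset.mem_univ _, ?_⟩
    simp only [Finset.mem_insert, Finset.mem_singleton] at hv
    rcases hv with rfl | rfl | rfl
    · exact S.q_one _
    · exact self_q hn _
    · exact he
  have h4 : ({1, w, e} : Finset S.G).card = 3 :=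
    Finset.card_eq_three.2 ⟨1, w, e, hw.symm, h1.symm, h2.symm, rfl⟩
  have h5 := Finset.card_le_card h3
  omega

/-- `Clean` on the level of `extMap` -/
theorem ext_clean_of {p y : S.G × Multiplicative (ZMod 2)}
    (h : ∀ a b : S.G × Multiplicative (ZMod 2), extMap S p a = extMap S y b →
      ∃ z, extMap S (p * y) z = extMap S p a) : Clean (ext S) p y := by
  intro a b e
  obtain ⟨z, hz⟩ := h a b ((ext_eq _ _ _ _).1 e)
  exact ⟨z, (ext_eq _ _ _ _).2 hz⟩

theorem ext_one' (p : S.G × Multiplicative (ZMod 2)) : extMap S p 1 = (S.zero, 1) :=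
  (ext_zero _ _).1 ((ext S).q_one p)

/-- group extensions -/
theorem t_ext [Finite S.G] (hn : S.neg = 1) (h : LT S) : LT (ext S) := by
  have hf : Finite (ext S).G := by
    show Finite (S.G × Multiplicative (ZMod 2))
    infer_instance
  intro u d v hd hv
  by_cases h0 : (ext S).q u d = (ext S).zero
  · exact clean_of_heavy v hd h0
  obtain ⟨u, μ⟩ := u
  obtain ⟨d, δ⟩ := d
  obtain ⟨v, ν⟩ := v
  rw [ext_zero] at h0 hv
  rcases two_cases μ with rfl | rfl
  · -- `u` in `S`
    have hu : u ≠ 1 := by
      rintro rfl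
      apply h0
      rcases two_cases δ with rfl | rfl
      · rw [extMap_one_one, one_q]
      · rw [extMap_one_x, one_q]
    obtain rfl : ν = 1 := by
      rcases two_cases ν with rfl | rfl
      · rfl
      · rw [extMap_one_x] at hv
        exact absurd (congrArg Prod.snd hv) hu
    rw [extMap_one_one] at hv
    have hv1 : S.q u v = S.zero := congrArg Prod.fst hv
    rcases two_cases δ with rfl | rfl
    · rw [extMap_one_one] at h0
      have hud : S.q u d ≠ S.zero := fun e => h0 (by rw [e])
      have ne1 : ∀ d', S.q u d' = S.q u d → d' ≠ 1 := by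
        rintro d' e rfl
        rw [S.q_one] at e
        exact hud e.symm
      have k := h u d v (fun d' e => by
        have := hd (d', 1) ((ext_eq _ _ _ _).2 (by rw [extMap_one_one, extMap_one_one, e]))
        rwa [va_ext_one (ne1 d' e), va_ext_one (ne1 d rfl)] at this) hv1
      refine ext_clean_of ?_
      rintro ⟨a, α⟩ ⟨b, β⟩ e
      have e1 : S.q v a = S.q d b := congrArg Prod.fst e
      rcases two_cases α with rfl | rfl <;> rcases two_cases β with rfl | rfl
      · obtain ⟨z, hz⟩ := k a b e1
        refine ⟨(z, 1), ?_⟩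
        rw [Prod.mk_mul_mk, mul_one, extMap_one_one, extMap_one_one, hz]
      · rw [extMap_one_one, extMap_one_x] at e
        exact absurd (congrArg Prod.snd e).symm (ne1 d rfl)
      · rw [extMap_one_one, extMap_one_x] at e
        obtain rfl : v = 1 := congrArg Prod.snd e
        refine ⟨1, ?_⟩
        rw [ext_one', extMap_one_x, one_q]
      · rw [extMap_one_x, extMap_one_x] at e
        obtain rfl : v = d := congrArg Prod.snd e
        exact absurd hv1 hud
    · refine ext_clean_of ?_
      rintro ⟨a, α⟩ ⟨b, β⟩ e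
      have e1 : S.q v a = S.q d b := congrArg Prod.fst e
      rcases two_cases α with rfl | rfl
      · -- second component `1`: the value is zero
        have e2 : extMap S (v, 1) (a, 1) = (S.zero, 1) := by
          rcases two_cases β with rfl | rfl
          · rw [extMap_one_one, extMap_x_one] at e
            obtain rfl : (1 : S.G) = b := congrArg Prod.snd e
            rw [extMap_one_one, e1, S.q_one]
          · rw [extMap_one_one, extMap_x_x, hn, one_mul] at e
            have h6 : d = b := (eq_iff_mul S _ _).2 (congrArg Prod.snd e).symm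
            rw [extMap_one_one, e1, ← h6, self_q hn]
        refine ⟨1, ?_⟩
        rw [e2, ext_one']
      · have e2 : S.q v a = S.q d v := by
          rcases two_cases β with rfl | rfl
          · rw [extMap_one_x, extMap_x_one] at e
            obtain rfl : v = b := congrArg Prod.snd e
            exact e1
          · rw [extMap_one_x, extMap_x_x, hn, one_mul] at e
            have h6 : v = d * b := congrArg Prod.snd e
            rw [h6, qr (self_q hn d), ← h6]
            exact e1
        refine ⟨(v, 1), ?_⟩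
        rw [Prod.mk_mul_mk, one_mul, extMap_x_one, extMap_one_x, e2]
        refine Prod.ext ?_ rfl
        show S.q (v * d) v = S.q d v
        rw [S.qs2, qr (self_q hn v), S.qs2]
  · -- `u` outside `S`
    rcases ann_ext_x hn hv with ⟨hvu, hν⟩ | ⟨hvu, hν⟩
    · subst hvu hν
      rintro a b e
      refine ⟨1, ?_⟩
      rw [(ext S).q_one]
      exact (one_q (ext S) a).symm
    · -- `v = u`
      subst hvu hν
      refine ext_clean_of ?_
      intro a c e
      have ha := extMap_x S v a
      rcases two_cases δ with rfl | rfl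
      · obtain ⟨b, β⟩ := c
        rcases two_cases β with rfl | rfl
        · rw [extMap_one_one] at e
          refine ⟨1, ?_⟩
          have h2 : (extMap S (v, tx) a).2 = 1 := congrArg Prod.snd e
          rw [ext_one', ha, h2, S.q_one]
        · rw [extMap_one_x] at e
          have h2 : (extMap S (v, tx) a).2 = d := congrArg Prod.snd e
          refine ⟨(d, 1), ?_⟩
          rw [Prod.mk_mul_mk, mul_one, extMap_x_one, ha, h2]
          refine Prod.ext ?_ rfl
          show S.q (v * d) d = S.q v d
          rw [S.qs2, mul_comm, qr (self_q hn d), S.qs2]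
      · have hc := extMap_x S d c
        obtain ⟨g, hg⟩ : ∃ g, (extMap S (v, tx) a).2 = g := ⟨_, rfl⟩
        have hg' : (extMap S (d, tx) c).2 = g := (congrArg Prod.snd e).symm.trans hg
        have e3 : S.q v g = S.q d g := by
          have h7 : extMap S (v, tx) a = (S.q v g, g) := by rw [ha, hg]
          have h8 : extMap S (d, tx) c = (S.q d g, g) := by rw [hc, hg']
          rw [h7, h8] at e
          exact congrArg Prod.fst e
        have hvd : v * d ≠ 1 := by
          intro h9
          apply h0
          obtain rfl : v = d := (eq_iff_mul S _ _).2 h9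
          rw [extMap_x_x, hn, one_mul, self_q hn, S.exp_two]
        have hle : va S (v * d) ≤ 2 := by
          have h9 := hd (v * d, 1) ((ext_eq _ _ _ _).2 (by
            rw [extMap_x_one, extMap_x_x, hn, one_mul, qr (self_q hn v)]))
          rw [va_ext_one hvd] at h9
          exact h9.trans (va_ext_x hn d)
        have e4 : S.q (v * d) g = S.zero := ql e3
        by_cases g1 : g = 1
        · refine ⟨1, ?_⟩
          rw [ext_one', ha, hg, g1, S.q_one]
        · have g2 : g = v * d := by
            by_contra g2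
            exact absurd (va_gt_two hn hvd e4 g1 g2) (not_lt.2 hle)
          refine ⟨(v, tx), ?_⟩
          rw [Prod.mk_mul_mk, x_mul_x, extMap_one_x, ha, hg, g2]
          refine Prod.ext ?_ rfl
          show S.q (v * d) v = S.q v (v * d)
          exact S.qs2 _ _

end Ext

/-- **every structure of elementary type with `-1 = 1` satisfies law T** -/
theorem lt_of_elem {S : QStruct} (h : ElemType S) : S.neg = 1 → Finite S.G → LT S := by
  induction h with
  | L0 S h =>
    intro _ _ u d v _ _ a b e
    obtain ⟨hs, -⟩ := Nat.card_eq_one_iff_unique.1 h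
    exact clean_of_zero e (by rw [Subsingleton.elim b 1, S.q_one])
  | L10 S h h1 h2 => exact fun _ _ u d v _ _ a b e => clean_of_zero e (h2 d b)
  | L11 S h h1 h2 => exact fun h3 => absurd h3 h1
  | L1 S h h1 h2 => exact fun h3 => absurd h3 h1
  | loc S hf h h1 h2 => exact fun _ _ => t_two h2
  | prod S T h1 h2 ih1 ih2 =>
    intro hn hf
    have hf' : Finite (S.G × T.G) := hf
    have f1 : Finite S.G := Finite.of_surjective (fun p : S.G × T.G => p.1)
      fun x => ⟨(x, 1), rfl⟩
    have f2 : Finite T.G := Finite.of_surjective (fun p : S.G × T.G => p.2)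
      fun x => ⟨(1, x), rfl⟩
    exact t_prod (ih1 (congrArg Prod.fst hn) f1) (ih2 (congrArg Prod.snd hn) f2)
  | ext S h ih =>
    intro hn hf
    have hf' : Finite (S.G × Multiplicative (ZMod 2)) := hf
    have f1 : Finite S.G := Finite.of_surjective (fun p : S.G × Multiplicative (ZMod 2) => p.1)
      fun x => ⟨(x, 1), rfl⟩
    have n1 : S.neg = 1 := congrArg Prod.fst hn
    exact t_ext n1 (ih n1 f1)
  | iso S T h1 h2 ih =>
    intro hn hf
    have hi := h1
    obtain ⟨φ, hφn, hφ⟩ := h1
    have n1 : S.neg = 1 := by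
      apply φ.injective
      rw [hφn, hn, map_one]
    exact t_iso hi (ih n1 (Finite.of_equiv _ φ.symm.toEquiv))

/-- law T in every structure of elementary type with `-1 = 1` -/
theorem lawT_of_elem {S : QStruct} (h : ElemType S) (hf : Finite S.G) (hneg : S.neg = 1) :
    LawT S := (lt_of_elem h hneg hf).lawT

/-- **the elementary type conjecture for `-1 = 1` is equivalent to law T** -/
theorem etc_iff_T : (∀ S : QStruct, Finite S.G → S.neg = 1 → ElemType S) ↔
    ∀ S : QStruct, Finite S.G → S.neg = 1 → LawT S := by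
  constructor
  · exact fun h S hf hn => (lt_of_elem (h S hf hn) hn hf).lawT
  · exact fun h => etc_of_T fun S M => h S M.fin M.neg

end Pool.Agent.UC32
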