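import Pool.Agent.ETGP.RegularTheoremOld
import Pool.Agent.KAP31.Door
import Pool.Agent.REL34.Basic

/-!
The door for law FD (helper99, helper3): a regular element `y` (`q (u, v) ∈ Q_y` for all `u ∈ V_y`
and all `v`) in every least structure with `-1 = 1` which is not of elementary type gives the
elementary type conjecture for `-1 = 1`.
-/

set_option autoImplicit false
set_option linter.unusedSectionVars false

namespace Pool.Agent.UC32

open QS
open Pool.Agent.MXR66 (va)
open Pool.Agent.KAP66 (InQ)
open Pool.Agent.KAP31 (MinEx InD etc_of_minEx)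
open Pool.Agent.ETGP.RegularTheoremOld (Regular Retract Linked)

/-- `y` is regular: all values of all elements of `V_y` are values of `y` -/
def Reg (S : QStruct) (y : S.G) : Prop := ∀ u v, S.q y u = S.zero → InQ S y (S.q u v)

theorem Reg.regular {S : QStruct} {y : S.G} (h : Reg S y) : Regular S ⊤ y :=
  ⟨Subgroup.mem_top y, fun w _ hw v _ => by
    obtain ⟨z, hz⟩ := h w v hw
    exact ⟨z, Subgroup.mem_top z, hz⟩⟩

/-- a least structure with `-1 = 1` which is not of elementary type has no regular element -/
theorem no_reg {S : QStruct} (M : MinEx S) (y : S.G) : ¬ Reg S y := by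
  intro hy
  have := M.fin
  refine M.ne (Pool.Agent.ETGP.RegularTheoremOld.result.2.1 S M.neg M.fin ⟨y, hy.regular⟩
    fun U hR hU => M.sm _ ?_ rfl ?_)
  · exact (inferInstance : Finite U)
  · have h1 : Nat.card U < Nat.card S.G := by
      have h2 : Nat.card U ∣ Nat.card S.G := Subgroup.card_subgroup_dvd_card U
      refine lt_of_le_of_ne (Nat.le_of_dvd Nat.card_pos h2) fun h3 => hU ?_
      exact Subgroup.eq_top_of_card_eq U h3
    exact h1

/-- **the door for law FD**: one regular element in every least structure not of elementary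
type -/
theorem etc_of_reg (h : ∀ S : QStruct, MinEx S → ∃ y, Reg S y) :
    ∀ S : QStruct, Finite S.G → S.neg = 1 → ElemType S :=
  etc_of_minEx fun S M => by
    obtain ⟨y, hy⟩ := h S M
    exact no_reg M y hy

/-- `y` is a non-slot of no symbol: `y ∈ D_c` gives `y ∈ S_c` -/
theorem reg_of_slot {S : QStruct} {y : S.G} (h : ∀ c, InD S c y → InQ S y c) : Reg S y := by
  intro u v hu
  refine h _ ⟨u, ⟨v, rfl⟩, ?_⟩
  rw [S.qs2]
  exact hu

theorem slot_of_reg {S : QStruct} {y : S.G} (h : Reg S y) {c : S.Q} (hc : InD S c y) :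
    InQ S y c := by
  obtain ⟨t, ⟨w, hw⟩, ht⟩ := hc
  rw [← hw]
  refine h t w ?_
  rw [S.qs2]
  exact ht

/-- in a least structure not of elementary type each element is a non-slot of some symbol -/
theorem exists_nonslot {S : QStruct} (M : MinEx S) (y : S.G) :
    ∃ c, InD S c y ∧ ¬ InQ S y c := by
  by_contra hno
  push Not at hno
  exact no_reg M y (reg_of_slot hno)

/-- `V_y` is least among the annihilators of elements different from `1` -/
def Lightest (S : QStruct) (y : S.G) : Prop := y ≠ 1 ∧ ∀ x, x ≠ 1 → va S y ≤ va S x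

theorem exists_lightest {S : QStruct} (M : MinEx S) : ∃ y, Lightest S y := by
  have := M.fin
  obtain ⟨g0, hg0⟩ := M.exists_ne
  have : Nonempty {x : S.G // x ≠ 1} := ⟨⟨g0, hg0⟩⟩
  obtain ⟨⟨g, hg⟩, hg'⟩ := Finite.exists_min (fun x : {x : S.G // x ≠ 1} => va S x.1)
  exact ⟨g, hg, fun x hx => hg' ⟨x, hx⟩⟩

/-- **law FD gives the elementary type conjecture for `-1 = 1`**: if `y` is lightest and
`y u = 0`, then `Q_u` is in `Q_y` -/
theorem etc_of_FD (h : ∀ S : QStruct, MinEx S → ∀ y, Lightest S y → ∀ u v, S.q y u = S.zero →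
    ∃ z, S.q y z = S.q u v) :
    ∀ S : QStruct, Finite S.G → S.neg = 1 → ElemType S :=
  etc_of_reg fun S M => by
    obtain ⟨y, hy⟩ := exists_lightest M
    exact ⟨y, fun u v hu => h S M y hy u v hu⟩

section QDataForm

open Pool.Agent.AST (toD)
open Pool.Agent.REL34 (Sl)

/-- the door for law FD, for the quaternionic data `toD S` on the additive group -/
theorem etc_of_regD (h : ∀ (S : QStruct) (M : MinEx S), ∃ y : Additive S.G, ∀ u v,
    (toD S M.neg).q y u = (toD S M.neg).z → Sl (toD S M.neg) ((toD S M.neg).q u v) y) :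
    ∀ S : QStruct, Finite S.G → S.neg = 1 → ElemType S :=
  etc_of_reg fun S M => by
    obtain ⟨y, hy⟩ := h S M
    refine ⟨Additive.toMul y, fun u v hu => ?_⟩
    obtain ⟨z, hz⟩ := hy (Additive.ofMul u) (Additive.ofMul v) hu
    exact ⟨Additive.toMul z, hz⟩

/-- the door for law FD at lightest elements, for the quaternionic data `toD S` -/
theorem etc_of_FDD (h : ∀ (S : QStruct) (M : MinEx S) (y : Additive S.G), y ≠ 0 →
    (∀ x : Additive S.G, x ≠ 0 →
      Nat.card ((toD S M.neg).ann y) ≤ Nat.card ((toD S M.neg).ann x)) →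
    ∀ u v, (toD S M.neg).q y u = (toD S M.neg).z →
      Sl (toD S M.neg) ((toD S M.neg).q u v) y) :
    ∀ S : QStruct, Finite S.G → S.neg = 1 → ElemType S :=
  etc_of_FD fun S M y hy u v hu => by
    have e : ∀ x : S.G, Nat.card ((toD S M.neg).ann (Additive.ofMul x)) = va S x := fun x =>
      Nat.card_congr
        { toFun := fun v => ⟨Additive.toMul v.1, v.2⟩
          invFun := fun v => ⟨Additive.ofMul v.1, v.2⟩
          left_inv := fun v => rfl
          right_inv := fun v => rfl }
    obtain ⟨z, hz⟩ := h S M (Additive.ofMul y) hy.1 (fun x hx => by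
      have h1 := hy.2 (Additive.toMul x) hx
      rw [← e, ← e] at h1
      exact h1) (Additive.ofMul u) (Additive.ofMul v) hu
    exact ⟨Additive.toMul z, hz⟩

end QDataForm

end Pool.Agent.UC32
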