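import Pool.Agent.UC32.LawT

/-!
The door for law JOIN (helper90): for a plane `{a, b, ab}` with
`TH = Q_a ∩ Q_b ∩ Q_(ab)` some `k` has `k V_a, k V_b, (ka) V_(ab) ⊆ TH`.
-/

set_option autoImplicit false
set_option linter.unusedSectionVars false

namespace Pool.Agent.UC32

open QS
open Pool.Agent.MXR66 (va Clean qr qm ql of_ql)
open Pool.Agent.KAP66 (InQ inQ_self slot cq cv finQ card_coset qmul_left' va_pos)
open Pool.Agent.KAP31 (MinEx)

variable {S : QStruct}

/-- the triple intersection -/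
def TH (S : QStruct) (a b : S.G) (c : S.Q) : Prop := InQ S a c ∧ InQ S b c ∧ InQ S (a * b) c

/-- the element `k` of law JOIN for the plane `{a, b, ab}` -/
def JoinAt (S : QStruct) (a b k : S.G) : Prop :=
  (∀ x, S.q a x = S.zero → TH S a b (S.q k x)) ∧
  (∀ x, S.q b x = S.zero → TH S a b (S.q k x)) ∧
  (∀ x, S.q (a * b) x = S.zero → TH S a b (S.q (k * a) x))

/-- **law JOIN** (helper90) -/
def LawJoin (S : QStruct) : Prop := ∀ a b : S.G, ∃ k, JoinAt S a b k

theorem inQ_mul {x y a b : S.G} (h1 : InQ S y (S.q x a)) (h2 : InQ S y (S.q x b)) :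
    InQ S y (S.q x (a * b)) := by
  obtain ⟨t, h3, h4⟩ := slot (inQ_self x a) h1
  obtain ⟨t', h5, h6⟩ := slot (inQ_self x b) h2
  have h7 : S.q (x * y) (t * t') = S.zero := by
    rw [qr (ql (h3.trans h4.symm))]
    exact ql (h5.trans h6.symm)
  refine ⟨t * t', ?_⟩
  rw [← of_ql h7]
  refine (S.qs3 _ _ _).2 ?_
  have e : t * t' * (a * b) = a * t * (b * t') := by ac_rfl
  rw [e, qr (qm h3.symm)]
  exact qm h5.symm

theorem inQ_mul' {x y a b : S.G} (h1 : InQ S y (S.q a x)) (h2 : InQ S y (S.q b x)) :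
    InQ S y (S.q (a * b) x) := by
  rw [S.qs2] at h1 h2 ⊢
  exact inQ_mul h1 h2

theorem TH.mul {a b x s t : S.G} (h1 : TH S a b (S.q x s)) (h2 : TH S a b (S.q x t)) :
    TH S a b (S.q x (s * t)) :=
  ⟨inQ_mul h1.1 h2.1, inQ_mul h1.2.1 h2.2.1, inQ_mul h1.2.2 h2.2.2⟩

/-- `v' = vk` maps `V_v V_(yv)` to the triple intersection -/
theorem join_maps {y v k : S.G} (J : JoinAt S y v k) {x : S.G} (hx : InQ S y (S.q v x)) :
    TH S y v (S.q (v * k) x) := by
  obtain ⟨w, h1, h2⟩ := slot (inQ_self v x) hx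
  have h3 : S.q v (x * w) = S.zero := qm h1.symm
  have h4 : S.q (y * v) w = S.zero := ql (h2.trans h1.symm)
  have h5 : TH S y v (S.q (v * k) (x * w)) := by
    rw [qmul_left' h3]
    exact J.2.1 _ h3
  have h6 : TH S y v (S.q (v * k) w) := by
    have h7 : S.q (v * k * (k * y)) w = S.zero := by
      have e : v * k * (k * y) = y * v := by
        rw [mul_assoc, ← mul_assoc k k y, S.exp_two, one_mul, mul_comm]
      rw [e]
      exact h4
    rw [of_ql h7]
    exact J.2.2 _ h4
  have h8 := h5.mul h6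
  have e : x * w * w = x := by rw [mul_assoc, S.exp_two, mul_one]
  rwa [e] at h8

/-- law JOIN for `{y, v, yv}` and `|V_(vk)| ≤ |V_v|` gives `Q_y ∩ Q_v ⊆ Q_(yv)` -/
theorem clean_of_join [Finite S.G] {y v k : S.G} (J : JoinAt S y v k)
    (hk : va S (v * k) ≤ va S v) : Clean S y v := by
  classical
  have := Fintype.ofFinite S.G
  have := finQ (S := S)
  have := Fintype.ofFinite S.Q
  set X : Finset S.G := Finset.univ.filter fun x => InQ S y (S.q v x) with hX
  set QQ : Finset S.Q := Finset.univ.filter fun c => InQ S v c ∧ InQ S y c with hQQ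
  set T : Finset S.Q := Finset.univ.filter fun c => TH S y v c with hT
  have memX : ∀ x, x ∈ X ↔ InQ S y (S.q v x) := fun x => by rw [hX, Finset.mem_filter]; simp
  have himg : X.image (S.q v) = QQ := by
    ext c
    rw [Finset.mem_image, hQQ, Finset.mem_filter]
    constructor
    · rintro ⟨x, hx, rfl⟩
      exact ⟨Finset.mem_univ _, ⟨x, rfl⟩, (memX x).1 hx⟩
    · rintro ⟨-, ⟨x, rfl⟩, h⟩
      exact ⟨x, (memX x).2 h, rfl⟩
  have hA : va S v * QQ.card ≤ X.card := by
    rw [← himg]
    refine Finset.mul_card_image_le_card _ _ fun c hc => ?_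
    obtain ⟨x, hx, rfl⟩ := Finset.mem_image.1 hc
    have e : (X.filter fun z => S.q v z = S.q v x) =
        Finset.univ.filter fun z => S.q v z = S.q v x := by
      ext z
      constructor
      · exact fun h => Finset.mem_filter.2 ⟨Finset.mem_univ _, (Finset.mem_filter.1 h).2⟩
      · intro h
        have h2 : S.q v z = S.q v x := (Finset.mem_filter.1 h).2
        refine Finset.mem_filter.2 ⟨(memX z).2 ?_, h2⟩
        rw [h2]
        exact (memX x).1 hx
    rw [e, ← Fintype.card_subtype, ← Nat.card_eq_fintype_card, card_coset (inQ_self v x)]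
  have hB : X.card ≤ va S (v * k) * T.card := by
    refine (Finset.card_le_mul_card_image (f := S.q (v * k)) X (va S (v * k))
      fun c hc => ?_).trans (Nat.mul_le_mul_left _ (Finset.card_le_card fun c hc => ?_))
    · obtain ⟨x, hx, rfl⟩ := Finset.mem_image.1 hc
      rw [← card_coset (inQ_self (v * k) x), Nat.card_eq_fintype_card, Fintype.card_subtype]
      exact Finset.card_le_card (Finset.filter_subset_filter _ (Finset.subset_univ _))
    · obtain ⟨x, hx, rfl⟩ := Finset.mem_image.1 hc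
      rw [hT, Finset.mem_filter]
      exact ⟨Finset.mem_univ _, join_maps J ((memX x).1 hx)⟩
  have hC : QQ.card ≤ T.card := by
    have h1 := (hA.trans hB).trans (Nat.mul_le_mul_right _ hk)
    exact Nat.le_of_mul_le_mul_left h1 (va_pos v)
  have hsub : T ⊆ QQ := by
    intro c hc
    rw [hT, Finset.mem_filter] at hc
    rw [hQQ, Finset.mem_filter]
    exact ⟨Finset.mem_univ _, hc.2.2.1, hc.2.1⟩
  have heq := Finset.eq_of_subset_of_card_le hsub hC
  intro a b e
  have h1 : S.q y a ∈ QQ := by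
    rw [hQQ, Finset.mem_filter]
    exact ⟨Finset.mem_univ _, ⟨b, e.symm⟩, ⟨a, rfl⟩⟩
  rw [← heq, hT, Finset.mem_filter] at h1
  exact h1.2.2.2

/-- **the door for law JOIN** at the planes `{y, v, yv}`, `y` lightest, `v` heaviest among the
elements with `v V_y` not in `Q_y` -/
theorem etc_of_JOIN (h : ∀ S : QStruct, MinEx S → ∀ y v, Lightest S y →
    (∃ u, S.q y u = S.zero ∧ ¬ InQ S y (S.q v u)) →
    (∀ v', (∃ u, S.q y u = S.zero ∧ ¬ InQ S y (S.q v' u)) → va S v' ≤ va S v) →
    ∃ k, JoinAt S y v k) :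
    ∀ S : QStruct, Finite S.G → S.neg = 1 → ElemType S :=
  etc_of_TR fun S M y v hy hu hv => by
    have := M.fin
    obtain ⟨k, J⟩ := h S M y v hy hu hv
    refine clean_of_join J (hv _ ?_)
    obtain ⟨u, h1, h2⟩ := hu
    refine ⟨u, h1, fun h3 => h2 ?_⟩
    have h4 := inQ_mul' h3 (J.1 u h1).1
    have e : v * k * k = v := by rw [mul_assoc, S.exp_two, mul_one]
    rwa [e] at h4

/-- **law JOIN gives the elementary type conjecture for `-1 = 1`** -/
theorem etc_of_join (h : ∀ S : QStruct, MinEx S → LawJoin S) :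
    ∀ S : QStruct, Finite S.G → S.neg = 1 → ElemType S :=
  etc_of_JOIN fun S M y v _ _ _ => h S M y v

end Pool.Agent.UC32
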