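import Pool.Agent.UC32.FD
import Pool.Agent.MXR66.Doors

/-!
The doors for law T and law FDh (helper74), and for one clean pair `(y, d)` at a lightest `y`.
-/

set_option autoImplicit false
set_option linter.unusedSectionVars false

namespace Pool.Agent.UC32

open QS
open Pool.Agent.MXR66 (va Clean clean_lt)
open Pool.Agent.KAP66 (InQ)
open Pool.Agent.KAP31 (MinEx InD etc_of_minEx)

/-- **the door for one clean pair**: if a lightest `y` is not regular, then for some `d` some value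
of `d` on `V_y` is not in `Q_y`, and `Q_y ∩ Q_d ⊆ Q_(yd)` -/
theorem etc_of_clean (h : ∀ S : QStruct, MinEx S → ∀ y, Lightest S y → ∀ u0 v0,
    S.q y u0 = S.zero → ¬ InQ S y (S.q u0 v0) → ∃ u d, S.q y u = S.zero ∧
      ¬ InQ S y (S.q d u) ∧ Clean S y d) :
    ∀ S : QStruct, Finite S.G → S.neg = 1 → ElemType S :=
  etc_of_FD fun S M y hy u0 v0 h0 => by
    have := M.fin
    by_contra hn
    obtain ⟨u, d, h1, h2, h3⟩ := h S M y hy u0 v0 h0 hn
    have h4 := clean_lt h1 (fun z hz => h2 ⟨z, hz⟩) h3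
    have h5 : y * d ≠ 1 := by
      intro h6
      have h7 : d = y := by
        have := congrArg (fun t => y * t) h6
        simpa [← mul_assoc, S.exp_two] using this
      apply h2
      rw [h7, h1]
      exact ⟨1, S.q_one y⟩
    exact absurd (hy.2 _ h5) (not_le.2 h4)

/-- **law FDh** (helper74) at a lightest `y`: `u ∈ V_y`, `b = u d` not in `Q_y`, `d` heaviest in the
coset `N_u(b)` gives `Q_y ∩ Q_d ⊆ Q_(yd)` -/
def LawFDh (S : QStruct) : Prop := ∀ y, Lightest S y → ∀ u d, S.q y u = S.zero →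
  ¬ InQ S y (S.q u d) → (∀ d', S.q u d' = S.q u d → va S d' ≤ va S d) → Clean S y d

theorem etc_of_FDh (h : ∀ S : QStruct, MinEx S → LawFDh S) :
    ∀ S : QStruct, Finite S.G → S.neg = 1 → ElemType S :=
  etc_of_clean fun S M y hy u0 v0 h0 hn => by
    have := M.fin
    have : Nonempty {d : S.G // S.q u0 d = S.q u0 v0} := ⟨⟨v0, rfl⟩⟩
    obtain ⟨⟨d, hd⟩, hd'⟩ :=
      Finite.exists_max (fun d : {d : S.G // S.q u0 d = S.q u0 v0} => va S d.1)
    refine ⟨u0, d, h0, ?_, h S M y hy u0 d h0 ?_ fun d' e => hd' ⟨d', e.trans hd⟩⟩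
    · rw [S.qs2, hd]
      exact hn
    · rw [hd]
      exact hn

/-- **law T** (helper74): `u d ≠ 0`, `d` heaviest in `d V_u`, `v ∈ V_u` gives
`Q_v ∩ Q_d ⊆ Q_(vd)` -/
def LawT (S : QStruct) : Prop := ∀ u d v, S.q u d ≠ S.zero →
  (∀ d', S.q u d' = S.q u d → va S d' ≤ va S d) → S.q u v = S.zero → Clean S v d

theorem LawT.fdh {S : QStruct} (h : LawT S) : LawFDh S := fun y _ u d h1 h2 h3 => by
  refine h u d y (fun h4 => h2 ?_) h3 ?_
  · rw [h4]
    exact ⟨1, S.q_one y⟩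
  · rw [S.qs2]
    exact h1

/-- **law T gives the elementary type conjecture for `-1 = 1`** -/
theorem etc_of_T (h : ∀ S : QStruct, MinEx S → LawT S) :
    ∀ S : QStruct, Finite S.G → S.neg = 1 → ElemType S :=
  etc_of_FDh fun S M => (h S M).fdh

/-- law T at the heaviest elements outside the group of all `x` with `x V_y ⊆ Q_y`, `y` lightest -/
theorem etc_of_TR (h : ∀ S : QStruct, MinEx S → ∀ y d, Lightest S y →
    (∃ u, S.q y u = S.zero ∧ ¬ InQ S y (S.q d u)) →
    (∀ d', (∃ u, S.q y u = S.zero ∧ ¬ InQ S y (S.q d' u)) → va S d' ≤ va S d) → Clean S y d) :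
    ∀ S : QStruct, Finite S.G → S.neg = 1 → ElemType S :=
  etc_of_clean fun S M y hy u0 v0 h0 hn => by
    have := M.fin
    have : Nonempty {d : S.G // ∃ u, S.q y u = S.zero ∧ ¬ InQ S y (S.q d u)} :=
      ⟨⟨v0, u0, h0, by rw [S.qs2]; exact hn⟩⟩
    obtain ⟨⟨d, u, h1, h2⟩, hd'⟩ := Finite.exists_max
      (fun d : {d : S.G // ∃ u, S.q y u = S.zero ∧ ¬ InQ S y (S.q d u)} => va S d.1)
    exact ⟨u, d, h1, h2, h S M y d hy ⟨u, h1, h2⟩ fun d' e => hd' ⟨d', e⟩⟩

end Pool.Agent.UC32
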