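import Pool.Agent.REL34.Step3

/-!
# Theorem UC (unique continuation, helper95), set valued

`S` is a finite linked structure with `-1 = 1`.  If all elements `n` with `q (g, n) = d` are slots
of `a`, where `a` is a value of `g` and `d` is not zero, then all slots of `d` are slots of `a`.
-/

set_option autoImplicit false
set_option linter.unusedSectionVars false
set_option linter.unusedSimpArgs false

namespace Pool.Agent.UC32

open Pool.Agent.Helper58.PLine (QData zm zm_ne_zero exists_functional)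
open Pool.Agent.HAS82 (ind ind_and natCard_eq card_mul card_mono)
open Pool.Agent.REL34
open scoped Classical
open Finset

variable {V Q : Type} [AddCommGroup V] [Module (ZMod 2) V] {S : QData V Q} {a : Q}
  {D : Submodule (ZMod 2) V} {l : V →ₗ[ZMod 2] ZMod 2}

/-- the map which is `a` where `l = 1` and zero where `l = 0` has values of `v` on `D` -/
structure Hx (S : QData V Q) (a : Q) (D : Submodule (ZMod 2) V) (l : V →ₗ[ZMod 2] ZMod 2) :
    Prop where
  hl : ∀ v ∈ D, l v ≠ 0 → Sl S a v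

theorem Hx.zero : Hx S a D 0 := ⟨fun _ _ h => absurd rfl h⟩

theorem Hx.plane' (H : Hx S a D l) {v w : V} (hv : v ∈ D) (hw : w ∈ D) :
    ∃ t0, S.q v t0 = val S a l v ∧ S.q w t0 = val S a l w := by
  by_cases e : l v = 0 <;> by_cases e' : l w = 0
  · exact ⟨0, by rw [q0, val_of0 e], by rw [q0, val_of0 e']⟩
  · have h1 : l (v + w) ≠ 0 := by rw [map_add, e, zero_add]; exact e'
    obtain ⟨t, h2, h3⟩ := lk (H.hl _ hw e') (H.hl _ (D.add_mem hv hw) h1)
    refine ⟨t, ?_, by rw [val_of1 e', h2]⟩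
    have h4 := lc h2 h3
    rw [add_comm v, xxy] at h4
    rw [h4, val_of0 e]
  · have h1 : l (v + w) ≠ 0 := by rw [map_add, e', add_zero]; exact e
    obtain ⟨t, h2, h3⟩ := lk (H.hl _ hv e) (H.hl _ (D.add_mem hv hw) h1)
    refine ⟨t, by rw [val_of1 e, h2], ?_⟩
    have h4 := lc h2 h3
    rw [xxy] at h4
    rw [h4, val_of0 e']
  · obtain ⟨t, h2, h3⟩ := lk (H.hl _ hv e) (H.hl _ hw e')
    exact ⟨t, by rw [val_of1 e, h2], by rw [val_of1 e', h3]⟩

theorem Hx.plane (H : Hx S a D l) (v w : V) :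
    ∃ t0, (v ∈ D → S.q v t0 = val S a l v) ∧ (w ∈ D → S.q w t0 = val S a l w) := by
  by_cases hv : v ∈ D <;> by_cases hw : w ∈ D
  · obtain ⟨t, h1, h2⟩ := H.plane' hv hw
    exact ⟨t, fun _ => h1, fun _ => h2⟩
  · obtain ⟨t, h1, -⟩ := H.plane' hv hv
    exact ⟨t, fun _ => h1, fun h => absurd h hw⟩
  · obtain ⟨t, h1, -⟩ := H.plane' hw hw
    exact ⟨t, fun h => absurd h hv, fun _ => h1⟩
  · exact ⟨0, fun h => absurd h hv, fun h => absurd h hw⟩

theorem Hx.sup_le (H : Hx S a D l) (u t : V) :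
    ∀ v ∈ KK S a D l t ⊔ KK S a D l (t + u), PE S a D l u t v := by
  intro v hv
  obtain ⟨x, hx, y, hy, rfl⟩ := Submodule.mem_sup.1 hv
  obtain ⟨t0, h1, h2⟩ := H.plane' hx.1 hy.1
  refine ⟨D.add_mem hx.1 hy.1, t0, val_add h1 h2, y, hy.1, ?_⟩
  have h3 : S.q x (t0 + t) = S.z := rc h1 hx.2
  have h4 : S.q y (t0 + (t + u)) = S.z := rc h2 hy.2
  rw [← add_assoc, ← S.add] at h4
  rw [add_comm]
  exact l0 h4 h3

/-- **Theorem HL** (helper95), termwise equality, for every `u` annihilated only by elements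
of `D` -/
theorem Hx.tw [Fintype V] (H : Hx S a D l) {u : V} (hu : S.ann u ≤ D) (t : V) :
    Nat.card (KK S a D l t) * Nat.card (KK S a D l (t + u)) =
      (∑ v : V, ind (PE S a D l u t v)) *
      Nat.card (KK S a D l t ⊓ KK S a D l (t + u) : Submodule (ZMod 2) V) := by
  have hs : ∀ l' : V →ₗ[ZMod 2] ZMod 2, ∑ t : V, Nat.card (KK S a D l' t) *
      Nat.card (KK S a D l' (t + u)) = ∑ t : V, ∑ v : V, ∑ w : V,
      ind (v ∈ KK S a D l' t ∧ w ∈ KK S a D l' (t + u)) := by
    intro l'
    refine Finset.sum_congr rfl fun t _ => ?_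
    rw [natCard_eq, natCard_eq, ind_mul_sum]
  have hr : ∀ l' : V →ₗ[ZMod 2] ZMod 2, ∑ t : V, (∑ v : V, ind (PE S a D l' u t v)) *
      Nat.card (KK S a D l' t ⊓ KK S a D l' (t + u) : Submodule (ZMod 2) V) =
      ∑ t : V, ∑ v : V, ∑ w : V,
      ind (PE S a D l' u t v ∧ w ∈ KK S a D l' t ⊓ KK S a D l' (t + u)) := by
    intro l'
    refine Finset.sum_congr rfl fun t _ => ?_
    rw [natCard_eq, ind_mul_sum]
  have e1 : ∑ t : V, Nat.card (KK S a D l t) * Nat.card (KK S a D l (t + u)) =
      ∑ t : V, Nat.card (KK S a D 0 t) * Nat.card (KK S a D 0 (t + u)) := by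
    rw [hs, hs]
    refine shiftG _ _ fun v w => ?_
    obtain ⟨t0, h1, h2⟩ := H.plane v w
    refine ⟨t0, fun t => ?_⟩
    rw [sh1 h1 t, sh1 h2 (t + u), show t + u + t0 = t + t0 + u by abel]
  have e2 : ∑ t : V, (∑ v : V, ind (PE S a D l u t v)) *
      Nat.card (KK S a D l t ⊓ KK S a D l (t + u) : Submodule (ZMod 2) V) =
      ∑ t : V, (∑ v : V, ind (PE S a D 0 u t v)) *
      Nat.card (KK S a D 0 t ⊓ KK S a D 0 (t + u) : Submodule (ZMod 2) V) := by
    rw [hr, hr]
    refine shiftG _ _ fun v w => ?_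
    obtain ⟨t0, h1, h2⟩ := H.plane v w
    refine ⟨t0, fun t => ?_⟩
    rw [sh2 h1 t, Submodule.mem_inf, Submodule.mem_inf, sh1 h2 t, sh1 h2 (t + u),
      show t + u + t0 = t + t0 + u by abel]
  have e3 : ∀ t : V, Nat.card (KK S a D 0 t) * Nat.card (KK S a D 0 (t + u)) =
      (∑ v : V, ind (PE S a D 0 u t v)) *
      Nat.card (KK S a D 0 t ⊓ KK S a D 0 (t + u) : Submodule (ZMod 2) V) := by
    intro t
    rw [cm_iff _ _ _ (Hx.zero.sup_le u t)]
    rintro v ⟨hv, t0, h1, v', hv', h2⟩
    rw [val_zero] at h1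
    have h3 : S.q v t = S.q v' u := by
      rw [← h2, S.add, show t + (t0 + t) = t0 + (t + t) by abel, ss, add_zero, h1]
    obtain ⟨x, h4, h5⟩ := S.link t v u v' (by rw [S.symm t, S.symm u, h3])
    have h6 : S.q x t = S.q v t := by rw [S.symm x, ← h4, S.symm]
    have h7 : S.q x u = S.q v' u := by rw [S.symm x, ← h5, S.symm]
    have hx : x ∈ D := by
      have h8 : S.q (v' + x) u = S.z := lc rfl h7
      have h9 := D.add_mem hv' (hu (show S.q u (v' + x) = S.z by rw [S.symm]; exact h8))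
      rwa [xxy] at h9
    have : v = (v + x) + x := by rw [xyy]
    rw [this]
    refine Submodule.add_mem_sup ⟨D.add_mem hv hx, ?_⟩ ⟨hx, ?_⟩
    · rw [val_zero]
      exact lc rfl h6
    · rw [val_zero, ← S.add, h6, h7, h3]
  have e4 : ∑ t : V, Nat.card (KK S a D l t) * Nat.card (KK S a D l (t + u)) =
      ∑ t : V, (∑ v : V, ind (PE S a D l u t v)) *
      Nat.card (KK S a D l t ⊓ KK S a D l (t + u) : Submodule (ZMod 2) V) := by
    rw [e1, e2]
    exact Finset.sum_congr rfl fun t _ => e3 t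
  exact (Finset.sum_eq_sum_iff_of_le fun t _ => cm_le _ _ _ (H.sup_le u t)).1 e4 t
    (Finset.mem_univ _)

/-- values of two elements add up -/
theorem val_add' {v u p p' x x' : V} (h : S.q v p = S.q u x) (h' : S.q v p' = S.q u x') :
    S.q v (p + p') = S.q u (x + x') := by
  obtain ⟨w, h1, h2⟩ := S.link v p u x h
  obtain ⟨w', h3, h4⟩ := S.link v p' u x' h'
  have e1 : S.q v (p + p') = S.q v (w + w') := by
    rw [S.add]
    have e : p + p' + (w + w') = (p + w) + (p' + w') := by abel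
    rw [e]
    exact r0 ((S.add _ _ _).1 h1) ((S.add _ _ _).1 h3)
  have e2 : S.q u (x + x') = S.q u (w + w') := by
    rw [S.add]
    have e : x + x' + (w + w') = (x + w) + (x' + w') := by abel
    rw [e]
    exact r0 ((S.add _ _ _).1 h2) ((S.add _ _ _).1 h4)
  have e3 : S.q v (w + w') = S.q u (w + w') := by
    rw [ladd]
    have f1 : S.q (v + u) w = S.z := by rw [← ladd, ← h1, h, h2]
    have f2 : S.q (v + u) w' = S.z := by rw [← ladd, ← h3, h', h4]
    exact r0 f1 f2
  rw [e1, e2, e3]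

/-- the equation `c (p) c (p + g) = 1` -/
theorem Hx.four [Fintype V] (H : Hx S a D l) {g : V} (hg : S.ann g ≤ D)
    (hlg : ∀ v, S.q g v = S.z → l v = 0) {n : V} (hn : S.q g n = a) (hnD : n ∈ D) (p : V) :
    Nat.card (KK S a D l p) * Nat.card (KK S a D l (p + g)) =
      Nat.card (KK S a D 0 p) * Nat.card (KK S a D 0 (p + g)) := by
  rw [H.tw hg p, Hx.zero.tw hg p]
  have e1 : ∀ v, PE S a D l g p v ↔ PE S a D 0 g p v := by
    intro v
    unfold PE
    refine and_congr_right fun hv => ?_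
    by_cases e : l v = 0
    · rw [val_of0 e, val_zero]
    · rw [val_of1 e, val_zero]
      constructor
      · rintro ⟨t1, h1, v', hv', h2⟩
        refine ⟨0, q0 v, v' + n, D.add_mem hv' hnD, ?_⟩
        have h3 : S.q v (t1 + p + t1) = S.q g (v' + n) :=
          val_add' (by rw [h2, S.symm]) (by rw [h1, hn])
        rw [S.symm (v' + n), ← h3, zero_add, show t1 + p + t1 = t1 + (t1 + p) by abel, xxy]
      · rintro ⟨t1, h1, v', hv', h2⟩
        obtain ⟨t2, h3⟩ := H.hl v hv e
        have h4 : S.q v p = S.q g v' := by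
          rw [← S.symm v', ← h2, add_comm]
          exact (r0 rfl h1).symm
        refine ⟨t2, h3, n + v', D.add_mem hnD hv', ?_⟩
        rw [S.symm (n + v')]
        exact val_add' (by rw [h3, hn]) h4
  have e2 : KK S a D l p ⊓ KK S a D l (p + g) = KK S a D 0 p ⊓ KK S a D 0 (p + g) := by
    ext v
    have key : S.q v g = S.z → l v = 0 := fun h => hlg v ((S.symm g v).trans h)
    constructor
    · rintro ⟨⟨h1, h2⟩, ⟨-, h4⟩⟩
      have h5 : S.q v g = S.z := by
        have := rc h2 h4
        rwa [xxy] at this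
      have h6 := key h5
      rw [val_of0 h6] at h2 h4
      exact ⟨⟨h1, by rw [val_zero]; exact h2⟩, ⟨h1, by rw [val_zero]; exact h4⟩⟩
    · rintro ⟨⟨h1, h2⟩, ⟨-, h4⟩⟩
      rw [val_zero] at h2 h4
      have h5 : S.q v g = S.z := by
        have := rc h2 h4
        rwa [xxy] at this
      have h6 := key h5
      exact ⟨⟨h1, by rw [val_of0 h6]; exact h2⟩, ⟨h1, by rw [val_of0 h6]; exact h4⟩⟩
  rw [e2]
  congr 1
  exact Finset.sum_congr rfl fun v _ => by rw [propext (e1 v)]

/-- the two kernels agree on the kernel of `l` -/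
theorem ker_inf (p : V) : KK S a D l p ⊓ LinearMap.ker l = KK S a D 0 p ⊓ LinearMap.ker l := by
  ext v
  constructor
  · rintro ⟨⟨b1, b2⟩, b3⟩
    rw [val_of0 b3] at b2
    exact ⟨⟨b1, by rw [val_zero]; exact b2⟩, b3⟩
  · rintro ⟨⟨b1, b2⟩, b3⟩
    rw [val_zero] at b2
    exact ⟨⟨b1, by rw [val_of0 b3]; exact b2⟩, b3⟩

/-- if `l` vanishes on a submodule, it lies in the kernel -/
theorem inf_ker {K : Submodule (ZMod 2) V} (h : ∀ v ∈ K, l v = 0) :
    K ⊓ LinearMap.ker l = K := inf_eq_left.2 fun v hv => h v hv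

/-- **Theorem UC** (helper95): `a` and `d` are values of `g`, `d` is not zero; if all `n` with
`q (g, n) = d` are slots of `a`, then all slots of `d` are slots of `a` -/
theorem uc [Finite V] (S : QData V Q) {a d : Q} (hd : d ≠ S.z) {g : V}
    (ga : Sl S a g) (gd : Sl S d g) (h : ∀ n, S.q g n = d → Sl S a n) {x : V}
    (hx : Sl S d x) : Sl S a x := by
  by_cases haz : a = S.z
  · exact ⟨0, by rw [q0, haz]⟩
  by_cases had : a = d
  · rw [had]
    exact hx
  have := Fintype.ofFinite V
  by_contra hna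
  obtain ⟨ta, hta⟩ := ga
  obtain ⟨td, htd⟩ := gd
  have h1 : ta ∉ S.ann g ⊔ Submodule.span (ZMod 2) {ta + td} := by
    intro h1
    obtain ⟨u, hu, w, hw, huw⟩ := Submodule.mem_sup.1 h1
    have hu' : S.q g u = S.z := hu
    obtain ⟨k, rfl⟩ := Submodule.mem_span_singleton.1 hw
    rcases zm k with rfl | rfl
    · rw [zero_smul, add_zero] at huw
      rw [huw] at hu'
      exact haz (hta.symm.trans hu')
    · rw [one_smul] at huw
      have e : u = td := by
        have h2 : u + (ta + td) + (ta + td) = ta + (ta + td) := by rw [huw]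
        rw [xyy, xxy] at h2
        exact h2
      rw [e] at hu'
      exact hd (htd.symm.trans hu')
  obtain ⟨l, hl1, hl0⟩ := exists_functional h1
  have lg : ∀ v, S.q g v = S.z → l v = 0 := fun v hv => hl0 v (Submodule.mem_sup_left hv)
  have ltd : l td = 1 := by
    have h2 := hl0 _ (Submodule.mem_sup_right (Submodule.mem_span_singleton_self (ta + td)))
    rw [map_add, hl1] at h2
    exact (Pool.Agent.Helper58.PLine.eq_of_add_eq_zero h2).symm
  let D : Submodule (ZMod 2) V := S.ann g ⊔ Submodule.span (ZMod 2) {ta, td}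
  have hg : S.ann g ≤ D := le_sup_left
  have taD : ta ∈ D := Submodule.mem_sup_right (Submodule.subset_span (by simp))
  have tdD : td ∈ D := Submodule.mem_sup_right (Submodule.subset_span (by simp))
  have memD : ∀ v t, t ∈ D → S.q g v = S.q g t → v ∈ D := by
    intro v t ht hv
    have h2 : v + t ∈ S.ann g := (S.add g v t).1 hv
    have h3 := D.add_mem (hg h2) ht
    rwa [xyy] at h3
  have lof : ∀ v t, S.q g v = S.q g t → l v = l t := by
    intro v t hv
    have h2 := lg _ ((S.add g v t).1 hv)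
    rw [map_add] at h2
    exact Pool.Agent.Helper58.PLine.eq_of_add_eq_zero h2
  have H : Hx S a D l := by
    refine ⟨fun v hv hlv => ?_⟩
    obtain ⟨u, hu, w, hw, rfl⟩ := Submodule.mem_sup.1 hv
    have hu' : S.q g u = S.z := hu
    obtain ⟨i, j, rfl⟩ := Submodule.mem_span_pair.1 hw
    have lu := lg u hu'
    rcases zm i with rfl | rfl <;> rcases zm j with rfl | rfl
    · exfalso
      apply hlv
      simp [lu]
    · have e : S.q g (u + ((0 : ZMod 2) • ta + (1 : ZMod 2) • td)) = d := by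
        rw [zero_smul, one_smul, zero_add, add_comm]
        exact r0 htd hu'
      exact h _ e
    · have e : S.q g (u + ((1 : ZMod 2) • ta + (0 : ZMod 2) • td)) = a := by
        rw [zero_smul, one_smul, add_zero, add_comm]
        exact r0 hta hu'
      exact Sl.co e
    · exfalso
      apply hlv
      rw [map_add, lu, one_smul, one_smul, map_add, hl1, ltd]
      decide
  have F := H.four hg lg hta taD x
  -- the kernel at `x`
  have k1 : KK S a D l x = KK S a D 0 x ⊓ LinearMap.ker l := by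
    rw [← ker_inf, inf_ker]
    rintro v ⟨b1, b2⟩
    by_contra hc
    rw [val_of1 hc] at b2
    exact hna (Sl.co b2)
  -- an element of the kernel at `x + g`
  obtain ⟨w, hw1, hw2⟩ := lk hx ⟨td, htd⟩
  have hwD : w ∈ D := memD w td tdD (hw2.trans htd.symm)
  have hwl : l w ≠ 0 := by
    rw [lof w td (hw2.trans htd.symm), ltd]
    exact one_ne_zero
  have hwK : w ∈ KK S a D 0 (x + g) := ⟨hwD, by rw [val_zero, S.symm]; exact lc hw1 hw2⟩
  have k2 := card_half hwK hwl
  have pos : ∀ K : Submodule (ZMod 2) V, 0 < Nat.card K := fun K => Nat.card_pos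
  by_cases hc : ∃ v ∈ KK S a D l (x + g), l v ≠ 0
  · obtain ⟨v, hv, hlv⟩ := hc
    have k3 := card_half hv hlv
    rw [ker_inf, ← k2] at k3
    have hs : Sl S a (x + g) := by
      have b2 := hv.2
      rw [val_of1 hlv] at b2
      exact Sl.co b2
    obtain ⟨v', e1, e2⟩ := lk hs ⟨ta, hta⟩
    have e3 : S.q x v' = S.z := by
      have := lc e1 e2
      rwa [xyy] at this
    have hv'D : v' ∈ D := memD v' ta taD (e2.trans hta.symm)
    have hv'l : l v' ≠ 0 := by
      rw [lof v' ta (e2.trans hta.symm), hl1]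
      exact one_ne_zero
    have hv'K : v' ∈ KK S a D 0 x := ⟨hv'D, by rw [val_zero, S.symm]; exact e3⟩
    have k4 := card_half hv'K hv'l
    rw [← k1] at k4
    rw [k3, k4] at F
    have p1 := pos (KK S a D l x)
    have p2 := pos (KK S a D 0 (x + g))
    nlinarith [Nat.mul_pos p1 p2]
  · push Not at hc
    have k3 : KK S a D l (x + g) = KK S a D 0 (x + g) ⊓ LinearMap.ker l := by
      rw [← ker_inf, inf_ker]
      exact hc
    rw [← k3] at k2
    have k5 : Nat.card (KK S a D l x) ≤ Nat.card (KK S a D 0 x) := by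
      rw [k1]
      exact card_mono inf_le_left
    rw [k2] at F
    have p1 := pos (KK S a D l x)
    have p2 := pos (KK S a D l (x + g))
    have p3 := Nat.mul_le_mul_right (Nat.card (KK S a D l (x + g))) k5
    nlinarith [Nat.mul_pos p1 p2]

end Pool.Agent.UC32
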